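import Mathlib

set_option autoImplicit false

namespace Pool.Agent.H289BV

/-- A generalized Bratteli diagram: `level v` is the level of the vertex `v`, the edge `e` goes
from `s e` to `r e`. -/
structure GBD where
  V : Type
  E : Type
  level : V → ℕ
  s : E → V
  r : E → V
  level_r : ∀ e, level (r e) = level (s e) + 1
  countable_V : Countable V
  countable_E : Countable E
  infinite_level : ∀ i, {v | level v = i}.Infinite
  out_edge : ∀ v, ∃ e, s e = v
  in_edge : ∀ v, level v ≠ 0 → ∃ e, r e = v
  finite_in : ∀ v, {e | r e = v}.Finite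

/-- the sets of edges are discrete -/
instance (B : GBD) : TopologicalSpace B.E := ⊥
instance (B : GBD) : DiscreteTopology B.E := ⟨rfl⟩
instance (B : GBD) : Countable B.E := B.countable_E
instance (B : GBD) : Countable B.V := B.countable_V

/-- the path space: infinite paths starting in `V_0` -/
def PathSpace (B : GBD) : Type :=
  {x : ℕ → B.E // B.level (B.s (x 0)) = 0 ∧ ∀ i, B.r (x i) = B.s (x (i + 1))}

/-- the topology of `PathSpace B` (generated by the cylinder sets) -/
instance (B : GBD) : TopologicalSpace (PathSpace B) :=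
  inferInstanceAs (TopologicalSpace
    {x : ℕ → B.E // B.level (B.s (x 0)) = 0 ∧ ∀ i, B.r (x i) = B.s (x (i + 1))})

/-- the Borel sets of `PathSpace B` -/
instance (B : GBD) : MeasurableSpace (PathSpace B) := borel (PathSpace B)

instance (B : GBD) : BorelSpace (PathSpace B) := ⟨rfl⟩

/-- an order on `B`: a linear order on every `r⁻¹(v)`, edges with different ranges are
incomparable -/
structure Ord (B : GBD) where
  le : B.E → B.E → Prop
  same_range : ∀ e f, le e f → B.r e = B.r f
  refl : ∀ e, le e e
  antisymm : ∀ e f, le e f → le f e → e = f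
  trans : ∀ e f g, le e f → le f g → le e g
  total : ∀ e f, B.r e = B.r f → le e f ∨ le f e

variable {B : GBD}

/-- `e` is maximal in its `r⁻¹`-class -/
def IsMaxEdge (O : Ord B) (e : B.E) : Prop := ∀ f, B.r f = B.r e → O.le f e

/-- `e` is minimal in its `r⁻¹`-class -/
def IsMinEdge (O : Ord B) (e : B.E) : Prop := ∀ f, B.r f = B.r e → O.le e f

/-- `f` is the successor of `e` -/
def IsSuccEdge (O : Ord B) (e f : B.E) : Prop :=
  O.le e f ∧ e ≠ f ∧ ∀ g, O.le e g → O.le g f → g = e ∨ g = f

/-- `y` is the image of `x` under the Vershik map: `n` is the least index with `x_n` not maximal,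
`y_n` is the successor of `x_n`, `y_i = x_i` for `i > n` and `y_0, …, y_{n-1}` are minimal -/
def VershikRel (O : Ord B) (x y : PathSpace B) : Prop :=
  ∃ n, (∀ i < n, IsMaxEdge O (x.1 i)) ∧ ¬ IsMaxEdge O (x.1 n) ∧ IsSuccEdge O (x.1 n) (y.1 n) ∧
    (∀ i > n, y.1 i = x.1 i) ∧ ∀ i < n, IsMinEdge O (y.1 i)

/-- the order `O` generates a Borel Vershik map: some Borel isomorphism `φ` of the path space onto
itself maps every path which is not maximal to its image under the Vershik map -/
def GeneratesBorelVershikMap (O : Ord B) : Prop :=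
  ∃ φ : PathSpace B ≃ᵐ PathSpace B, ∀ x, (∃ i, ¬ IsMaxEdge O (x.1 i)) → VershikRel O x (φ x)

end Pool.Agent.H289BV
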