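import Pool.Agent.H289BV.Paths

set_option autoImplicit false

namespace Pool.Agent.H289BV

open MeasureTheory

variable {B : GBD}

def pathSet (B : GBD) : Set (ℕ → B.E) :=
  {x | B.level (B.s (x 0)) = 0 ∧ ∀ i, B.r (x i) = B.s (x (i + 1))}

theorem continuous_coord (j : ℕ) : Continuous (fun x : PathSpace B => x.1 j) :=
  (continuous_apply j).comp continuous_subtype_val

theorem isClosed_pathSet : IsClosed (pathSet B) := by
  have h : pathSet B = {x | B.level (B.s (x 0)) = 0} ∩
      ⋂ i, {x : ℕ → B.E | B.r (x i) = B.s (x (i + 1))} := by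
    ext x
    simp [pathSet]
  rw [h]
  refine IsClosed.inter ?_ (isClosed_iInter fun i => ?_)
  · exact IsClosed.preimage (f := fun x : ℕ → B.E => x 0) (continuous_apply 0)
      (isClosed_discrete {e : B.E | B.level (B.s e) = 0})
  · exact IsClosed.preimage (f := fun x : ℕ → B.E => (x i, x (i + 1)))
      ((continuous_apply i).prodMk (continuous_apply (i + 1)))
      (isClosed_discrete {p : B.E × B.E | B.r p.1 = B.s p.2})

instance : PolishSpace B.E := inferInstance

instance : PolishSpace (ℕ → B.E) := inferInstance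

instance : PolishSpace (PathSpace B) := (isClosed_pathSet (B := B)).polishSpace

def mkPath (x : ℕ → B.E) (h : B.level (B.s (x 0)) = 0 ∧ ∀ i, B.r (x i) = B.s (x (i + 1))) :
    PathSpace B := ⟨x, h⟩

instance : SecondCountableTopology (PathSpace B) := inferInstance

theorem measurableSet_coord (j : ℕ) (S : Set B.E) : MeasurableSet {x : PathSpace B | x.1 j ∈ S} :=
  ((isOpen_discrete S).preimage (continuous_coord j)).measurableSet

/-- a map to the path space is measurable if its coordinates are -/
theorem measurable_of_coord {Y : Type*} [MeasurableSpace Y] (f : Y → PathSpace B)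
    (h : ∀ i e, MeasurableSet {y | (f y).1 i = e}) : Measurable f := by
  let _ : MeasurableSpace B.E := borel B.E
  have _ : BorelSpace B.E := ⟨rfl⟩
  have h1 : Measurable (fun y => (f y).1) := by
    refine measurable_pi_iff.2 (fun i => ?_)
    refine measurable_to_countable' (fun e => ?_)
    exact h i e
  have h2 : (inferInstance : MeasurableSpace (PathSpace B)) =
      MeasurableSpace.comap (fun x : PathSpace B => x.1) MeasurableSpace.pi := by
    have h3 : (MeasurableSpace.pi : MeasurableSpace (ℕ → B.E)) = borel (ℕ → B.E) :=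
      (Pi.borelSpace (X := fun _ : ℕ => B.E)).measurable_eq
    rw [h3, ← borel_comap]
    rfl
  intro s hs
  have hs' : @MeasurableSet _ (MeasurableSpace.comap (fun x : PathSpace B => x.1)
      MeasurableSpace.pi) s := by rw [← h2]; exact hs
  obtain ⟨t, ht, rfl⟩ := hs'
  exact h1 ht

section

variable (O : Ord B)

def Xmax : Set (PathSpace B) := {x | ∀ i, IsMaxEdge O (x.1 i)}
def Xmin : Set (PathSpace B) := {x | ∀ i, IsMinEdge O (x.1 i)}

def Pn (n : ℕ) : Set (PathSpace B) :=
  {x | (∀ i < n, IsMaxEdge O (x.1 i)) ∧ ¬ IsMaxEdge O (x.1 n)}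

theorem measurableSet_Xmax : MeasurableSet (Xmax O) := by
  have : Xmax O = ⋂ i, {x : PathSpace B | x.1 i ∈ {e | IsMaxEdge O e}} := by
    ext x; simp [Xmax]
  rw [this]
  exact MeasurableSet.iInter fun i => measurableSet_coord i _

theorem measurableSet_Xmin : MeasurableSet (Xmin O) := by
  have : Xmin O = ⋂ i, {x : PathSpace B | x.1 i ∈ {e | IsMinEdge O e}} := by
    ext x; simp [Xmin]
  rw [this]
  exact MeasurableSet.iInter fun i => measurableSet_coord i _

theorem measurableSet_Pn (n : ℕ) : MeasurableSet (Pn O n) := by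
  have : Pn O n = (⋂ i : ℕ, ⋂ _ : i < n, {x : PathSpace B | x.1 i ∈ {e | IsMaxEdge O e}}) ∩
      {x | x.1 n ∈ {e | ¬ IsMaxEdge O e}} := by
    ext x; simp [Pn]
  rw [this]
  exact (MeasurableSet.iInter fun i => MeasurableSet.iInter fun _ =>
    measurableSet_coord i _).inter (measurableSet_coord n _)

/-- The Vershik map, as a total function. -/
theorem exists_vershik : ∃ T : PathSpace B → PathSpace B,
    (∀ x, x ∉ Xmax O → VershikRel O x (T x)) ∧
    (∀ i e, MeasurableSet {x | (T x).1 i = e}) := by
  classical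
  have hmin : ∀ v : B.V, ∃ e, B.level v ≠ 0 → B.r e = v ∧ IsMinEdge O e := by
    intro v
    by_cases hv : B.level v = 0
    · obtain ⟨e, he⟩ := B.out_edge v
      exact ⟨e, fun h => absurd hv h⟩
    · obtain ⟨e, he⟩ := exists_min O v hv
      exact ⟨e, fun _ => he⟩
  choose m hm using hmin
  have hmc : IsChoice B m := fun v hv => (hm v hv).1
  have hsucc : ∀ e : B.E, ∃ f, ¬ IsMaxEdge O e → IsSuccEdge O e f := by
    intro e
    by_cases he : IsMaxEdge O e
    · exact ⟨e, fun h => absurd he h⟩
    · obtain ⟨f, hf⟩ := exists_succ O e he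
      exact ⟨f, fun _ => hf⟩
  choose σ hσ using hsucc
  let y : ℕ → PathSpace B → ℕ → B.E := fun n x i => if i = n then σ (x.1 n) else x.1 i
  have hy : ∀ n x, x ∈ Pn O n → B.level (B.s (y n x n)) = n ∧
      ∀ i, n ≤ i → B.r (y n x i) = B.s (y n x (i + 1)) := by
    intro n x hx
    have h1 := hσ _ hx.2
    have h2 : B.r (σ (x.1 n)) = B.r (x.1 n) := (O.same_range _ _ h1.1).symm
    constructor
    · have h3 := B.level_r (σ (x.1 n))
      rw [h2, level_rr] at h3
      simp only [y, if_true]
      omega
    · intro i hi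
      have h4 : i + 1 ≠ n := by omega
      simp only [y, if_neg h4]
      by_cases h5 : i = n
      · subst h5
        rw [if_pos rfl, h2, x.2.2]
      · rw [if_neg h5, x.2.2]
  have hex : ∀ x, x ∉ Xmax O → ∃ n, x ∈ Pn O n := by
    intro x hx
    have h1 : ∃ i, ¬ IsMaxEdge O (x.1 i) := by
      by_contra hcon
      push Not at hcon
      exact hx hcon
    refine ⟨Nat.find h1, fun i hi => ?_, Nat.find_spec h1⟩
    by_contra h2
    exact Nat.find_min h1 hi h2
  have hPn : ∀ x n n', x ∈ Pn O n → x ∈ Pn O n' → n = n' := by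
    intro x n n' h h'
    rcases Nat.lt_trichotomy n n' with h1 | h1 | h1
    · exact absurd (h'.1 n h1) h.2
    · exact h1
    · exact absurd (h.1 n' h1) h'.2
  have hsp : ∀ n x, x ∈ Pn O n → B.level (B.s (splice B m n (y n x) 0)) = 0 ∧
      (∀ i, B.r (splice B m n (y n x) i) = B.s (splice B m n (y n x) (i + 1))) ∧
      ∀ i < n, splice B m n (y n x) i = m (B.r (splice B m n (y n x) i)) :=
    fun n x hx => splice_mem hmc (hy n x hx).1 (hy n x hx).2
  let N : PathSpace B → ℕ := fun x => if h : ∃ n, x ∈ Pn O n then h.choose else 0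
  have hN : ∀ n x, x ∈ Pn O n → N x = n := by
    intro n x hx
    have h1 : ∃ n, x ∈ Pn O n := ⟨n, hx⟩
    simp only [N, dif_pos h1]
    exact hPn x _ _ h1.choose_spec hx
  let T : PathSpace B → PathSpace B := fun x =>
    if hx : x ∈ Pn O (N x) then
      mkPath (splice B m (N x) (y (N x) x)) ⟨(hsp _ x hx).1, (hsp _ x hx).2.1⟩
    else x
  have hT : ∀ n x, x ∈ Pn O n → (T x).1 = splice B m n (y n x) := by
    intro n x hx
    have h2 := hN n x hx
    have h3 : x ∈ Pn O (N x) := by rw [h2]; exact hx
    have h4 : T x = mkPath (splice B m (N x) (y (N x) x)) ⟨(hsp _ x h3).1, (hsp _ x h3).2.1⟩ :=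
      dif_pos h3
    rw [h4]
    show splice B m (N x) (y (N x) x) = _
    rw [h2]
  refine ⟨T, ?_, ?_⟩
  · intro x hx
    obtain ⟨n, hn⟩ := hex x hx
    refine ⟨n, hn.1, hn.2, ?_, ?_, ?_⟩
    · rw [hT n x hn, splice_ge m _ le_rfl]
      simp only [y, if_true]
      exact hσ _ hn.2
    · intro i hi
      rw [hT n x hn, splice_ge m _ (le_of_lt hi)]
      simp only [y, if_neg (show i ≠ n by omega)]
    · intro i hi
      have h1 := (hsp n x hn).2.2 i hi
      rw [← hT n x hn] at h1
      rw [h1]
      exact (hm _ (by rw [level_rr]; omega)).2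
  · intro i e
    have h1 : {x | (T x).1 i = e} = (⋃ n, Pn O n ∩ {x | splice B m n (y n x) i = e}) ∪
        (Xmax O ∩ {x | x.1 i ∈ ({e} : Set B.E)}) := by
      ext x
      simp only [Set.mem_union, Set.mem_iUnion, Set.mem_inter_iff, Set.mem_ofPred_eq,
        Set.mem_singleton_iff]
      by_cases hx : x ∈ Xmax O
      · have h2 : ¬ ∃ n, x ∈ Pn O n := by
          rintro ⟨n, hn⟩
          exact hn.2 (hx n)
        have h3 : T x = x := dif_neg (fun h => h2 ⟨_, h⟩)
        rw [h3]
        constructor
        · intro h; exact Or.inr ⟨hx, h⟩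
        · rintro (⟨n, hn, -⟩ | ⟨-, h⟩)
          · exact absurd ⟨n, hn⟩ h2
          · exact h
      · obtain ⟨n, hn⟩ := hex x hx
        rw [hT n x hn]
        constructor
        · intro h; exact Or.inl ⟨n, hn, h⟩
        · rintro (⟨n', hn', h⟩ | ⟨h, -⟩)
          · rw [hPn x n n' hn hn']; exact h
          · exact absurd h hx
    rw [h1]
    refine (MeasurableSet.iUnion fun n => (measurableSet_Pn O n).inter ?_).union
      ((measurableSet_Xmax O).inter (measurableSet_coord i _))
    rcases Nat.lt_or_ge i n with h | h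
    · have h2 : {x : PathSpace B | splice B m n (y n x) i = e} =
          {x | x.1 n ∈ {f : B.E | m (below B m (B.s (σ f)) (n - 1 - i)) = e}} := by
        ext x
        simp only [Set.mem_ofPred_eq]
        rw [splice_lt m _ h]
        simp only [y, if_true]
      rw [h2]
      exact measurableSet_coord n _
    · by_cases h3 : i = n
      · subst h3
        have h2 : {x : PathSpace B | splice B m i (y i x) i = e} =
            {x | x.1 i ∈ {f : B.E | σ f = e}} := by
          ext x
          simp only [Set.mem_ofPred_eq]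
          rw [splice_ge m _ h]
          simp only [y, if_true]
        rw [h2]
        exact measurableSet_coord i _
      · have h2 : {x : PathSpace B | splice B m n (y n x) i = e} =
            {x | x.1 i ∈ ({e} : Set B.E)} := by
          ext x
          simp only [Set.mem_ofPred_eq, Set.mem_singleton_iff]
          rw [splice_ge m _ h]
          simp only [y, if_neg h3]
        rw [h2]
        exact measurableSet_coord i _

theorem Xmin_rev : Xmin O.rev = Xmax O := rfl
theorem Xmax_rev : Xmax O.rev = Xmin O := rfl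

theorem vershik_notmin {x y : PathSpace B} (h : VershikRel O x y) : y ∉ Xmin O := by
  obtain ⟨n, -, -, h3, -, -⟩ := h
  exact fun hy => not_min_of_succ O h3 (hy n)

theorem generates_of_equiv (θ : Xmax O ≃ᵐ Xmin O) : GeneratesBorelVershikMap O := by
  classical
  obtain ⟨T, hT1, hT2⟩ := exists_vershik O
  obtain ⟨S, hS1, hS2⟩ := exists_vershik O.rev
  have hTm : Measurable T := measurable_of_coord T hT2
  let φ : PathSpace B → PathSpace B := fun x =>
    if h : x ∈ Xmax O then ((θ ⟨x, h⟩ : Xmin O) : PathSpace B) else T x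
  have hφ1 : ∀ x (h : x ∈ Xmax O), φ x = (θ ⟨x, h⟩ : PathSpace B) := by
    intro x h; simp only [φ, dif_pos h]
  have hφ2 : ∀ x, x ∉ Xmax O → φ x = T x := by
    intro x h; simp only [φ, dif_neg h]
  have hφm : Measurable φ := by
    refine Measurable.dite (s := Xmax O) (f := fun x => ((θ x : Xmin O) : PathSpace B))
      (g := fun x => T x) ?_ ?_ (measurableSet_Xmax O)
    · exact measurable_subtype_coe.comp θ.measurable
    · exact hTm.comp measurable_subtype_coe
  have hinj : Function.Injective φ := by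
    intro x x' hxx
    by_cases hx : x ∈ Xmax O <;> by_cases hx' : x' ∈ Xmax O
    · rw [hφ1 x hx, hφ1 x' hx'] at hxx
      have := θ.injective (Subtype.ext hxx)
      exact congrArg Subtype.val this
    · exfalso
      rw [hφ1 x hx, hφ2 x' hx'] at hxx
      exact vershik_notmin O (hT1 x' hx') (by rw [← hxx]; exact (θ ⟨x, hx⟩).2)
    · exfalso
      rw [hφ1 x' hx', hφ2 x hx] at hxx
      exact vershik_notmin O (hT1 x hx) (by rw [hxx]; exact (θ ⟨x', hx'⟩).2)
    · rw [hφ2 x hx, hφ2 x' hx'] at hxx
      have h1 := vershik_rev O (hT1 x hx)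
      have h2 := vershik_rev O (hT1 x' hx')
      rw [hxx] at h1
      exact vershik_unique O.rev h1 h2
  have hsurj : Function.Surjective φ := by
    intro y
    by_cases hy : y ∈ Xmin O
    · refine ⟨(θ.symm ⟨y, hy⟩ : Xmax O), ?_⟩
      rw [hφ1 _ (θ.symm ⟨y, hy⟩).2]
      simp
    · have h1 : VershikRel O.rev y (S y) := hS1 y hy
      have h2 := rev_vershik O h1
      refine ⟨S y, ?_⟩
      have h3 : S y ∉ Xmax O := by
        obtain ⟨n, -, h4, -⟩ := h2
        exact fun h => h4 (h n)
      rw [hφ2 _ h3]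
      exact vershik_unique O (hT1 _ h3) h2
  have hemb := hφm.measurableEmbedding hinj
  refine ⟨⟨Equiv.ofBijective φ ⟨hinj, hsurj⟩, hφm, ?_⟩, ?_⟩
  · intro s hs
    have h1 : (Equiv.ofBijective φ ⟨hinj, hsurj⟩).symm ⁻¹' s = φ '' s := by
      ext y
      constructor
      · intro h
        exact ⟨_, h, (Equiv.ofBijective φ ⟨hinj, hsurj⟩).apply_symm_apply y⟩
      · rintro ⟨x, hx, rfl⟩
        show (Equiv.ofBijective φ ⟨hinj, hsurj⟩).symm (φ x) ∈ s
        have : (Equiv.ofBijective φ ⟨hinj, hsurj⟩).symm (φ x) = x :=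
          (Equiv.ofBijective φ ⟨hinj, hsurj⟩).symm_apply_apply x
        rw [this]; exact hx
    show MeasurableSet ((Equiv.ofBijective φ ⟨hinj, hsurj⟩).symm ⁻¹' s)
    rw [h1]
    exact hemb.measurableSet_image.2 hs
  · rintro x ⟨i, hi⟩
    have hx : x ∉ Xmax O := fun h => hi (h i)
    show VershikRel O x (φ x)
    rw [hφ2 x hx]
    exact hT1 x hx

end

end Pool.Agent.H289BV
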