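import Pool.Agent.H289BV.PartA

set_option autoImplicit false

namespace Pool.Agent.H289BV

variable {B : GBD}

/-- two edges into every vertex, different if possible -/
structure Two (B : GBD) where
  e0 : B.V → B.E
  e1 : B.V → B.E
  h0 : ∀ v, B.level v ≠ 0 → B.r (e0 v) = v
  h1 : ∀ v, B.level v ≠ 0 → B.r (e1 v) = v
  ne : ∀ v, B.level v ≠ 0 → e0 v = e1 v → ∀ e, B.r e = v → e = e0 v

theorem exists_two (B : GBD) : Nonempty (Two B) := by
  have h : ∀ v : B.V, ∃ e0 e1 : B.E, B.level v ≠ 0 → B.r e0 = v ∧ B.r e1 = v ∧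
      (e0 = e1 → ∀ e, B.r e = v → e = e0) := by
    intro v
    by_cases hv : B.level v = 0
    · obtain ⟨e, -⟩ := B.out_edge v
      exact ⟨e, e, fun h => absurd hv h⟩
    · obtain ⟨e, he⟩ := B.in_edge v hv
      by_cases h2 : ∃ f, B.r f = v ∧ f ≠ e
      · obtain ⟨f, hf1, hf2⟩ := h2
        exact ⟨e, f, fun _ => ⟨he, hf1, fun h => absurd h.symm hf2⟩⟩
      · push Not at h2
        exact ⟨e, e, fun _ => ⟨he, he, fun _ f hf => h2 f hf⟩⟩
  choose e0 e1 hh using h
  exact ⟨⟨e0, e1, fun v hv => (hh v hv).1, fun v hv => (hh v hv).2.1,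
    fun v hv => (hh v hv).2.2⟩⟩

variable (W : Two B)

/-- the choice function of `b` -/
def M (b : B.V → Bool) (v : B.V) : B.E := if b v then W.e1 v else W.e0 v

def neg (b : B.V → Bool) : B.V → Bool := fun v => !b v

theorem M_choice (b : B.V → Bool) : IsChoice B (M W b) := by
  intro v hv
  unfold M
  split
  · exact W.h1 v hv
  · exact W.h0 v hv

theorem M_single (b : B.V → Bool) (v : B.V) (hv : B.level v ≠ 0) (h : M W b v = M W (neg b) v) :
    ∀ e, B.r e = v → e = M W b v := by
  have h2 : W.e0 v = W.e1 v := by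
    unfold M neg at h
    cases hb : b v
    · simp [hb] at h; exact h
    · simp [hb] at h; exact h.symm
  intro e he
  rw [W.ne v hv h2 e he]
  unfold M
  split
  · exact h2
  · rfl

def XM (b : B.V → Bool) : Set (PathSpace B) := {x | ∀ i, x.1 i = M W b (B.r (x.1 i))}

open Classical in
noncomputable def key (b : B.V → Bool) (e : B.E) : WithTop ℕ :=
  if e = M W b (B.r e) then ⊤ else if e = M W (neg b) (B.r e) then 0
  else (((Countable.exists_injective_nat B.E).choose e + 1 : ℕ) : WithTop ℕ)

theorem key_top {b : B.V → Bool} {e : B.E} : key W b e = ⊤ ↔ e = M W b (B.r e) := by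
  classical
  unfold key
  constructor
  · intro h
    by_contra h1
    rw [if_neg h1] at h
    split at h
    · exact absurd h (by simp)
    · exact absurd h (by simp)
  · intro h; rw [if_pos h]

theorem key_zero {b : B.V → Bool} {e : B.E} (h : key W b e = 0) : e = M W (neg b) (B.r e) := by
  classical
  unfold key at h
  split at h
  · exact absurd h (by simp)
  · split at h
    · assumption
    · exfalso
      have h2 : ((Countable.exists_injective_nat B.E).choose e + 1) = 0 := by exact_mod_cast h
      omega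

theorem key_inj {b : B.V → Bool} {e f : B.E} (hr : B.r e = B.r f)
    (h : key W b e = key W b f) : e = f := by
  classical
  by_cases h1 : e = M W b (B.r e)
  · have h2 := (key_top W).2 h1
    rw [h] at h2
    rw [h1, (key_top W).1 h2, hr]
  · by_cases h2 : f = M W b (B.r f)
    · have h3 := (key_top W).2 h2
      rw [← h] at h3
      exact absurd ((key_top W).1 h3) h1
    · by_cases h3 : e = M W (neg b) (B.r e)
      · have h4 : key W b e = 0 := by unfold key; rw [if_neg h1, if_pos h3]
        rw [h] at h4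
        have h5 := key_zero W h4
        rw [h3, hr, ← h5]
      · by_cases h4 : f = M W (neg b) (B.r f)
        · have h5 : key W b f = 0 := by unfold key; rw [if_neg h2, if_pos h4]
          rw [← h] at h5
          exact absurd (key_zero W h5) h3
        · unfold key at h
          rw [if_neg h1, if_neg h3, if_neg h2, if_neg h4] at h
          have h5 : (Countable.exists_injective_nat B.E).choose e + 1 =
              (Countable.exists_injective_nat B.E).choose f + 1 := by exact_mod_cast h
          exact (Countable.exists_injective_nat B.E).choose_spec (by omega)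

/-- the order of `b` -/
noncomputable def ordOf (b : B.V → Bool) : Ord B where
  le e f := B.r e = B.r f ∧ key W b e ≤ key W b f
  same_range e f h := h.1
  refl e := ⟨rfl, le_rfl⟩
  antisymm e f h h' := key_inj W h.1 (le_antisymm h.2 h'.2)
  trans e f g h h' := ⟨h.1.trans h'.1, h.2.trans h'.2⟩
  total e f h := by
    rcases le_total (key W b e) (key W b f) with h' | h'
    · exact Or.inl ⟨h, h'⟩
    · exact Or.inr ⟨h.symm, h'⟩

theorem isMax_ordOf (b : B.V → Bool) (e : B.E) :
    IsMaxEdge (ordOf W b) e ↔ e = M W b (B.r e) := by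
  have hl : B.level (B.r e) ≠ 0 := by rw [B.level_r]; omega
  constructor
  · intro h
    have h1 := (h (M W b (B.r e)) (M_choice W b _ hl)).2
    have h2 : key W b (M W b (B.r e)) = ⊤ := by
      rw [key_top, M_choice W b _ hl]
    rw [h2, top_le_iff] at h1
    exact (key_top W).1 h1
  · intro h f hf
    refine ⟨hf, ?_⟩
    rw [(key_top W).2 h]
    exact le_top

theorem isMin_ordOf (b : B.V → Bool) (e : B.E) :
    IsMinEdge (ordOf W b) e ↔ e = M W (neg b) (B.r e) := by
  classical
  have hl : B.level (B.r e) ≠ 0 := by rw [B.level_r]; omega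
  by_cases hs : M W b (B.r e) = M W (neg b) (B.r e)
  · have h1 := M_single W b _ hl hs
    constructor
    · intro _
      rw [← hs]; exact h1 e rfl
    · intro _ f hf
      rw [h1 f hf, ← h1 e rfl]
      exact (ordOf W b).refl e
  · constructor
    · intro h
      have h1 := (h (M W (neg b) (B.r e)) (M_choice W _ _ hl).symm.symm).2
      have h2 : key W b (M W (neg b) (B.r e)) = 0 := by
        unfold key
        rw [M_choice W (neg b) _ hl, if_neg (fun h => hs h.symm), if_pos rfl]
      rw [h2] at h1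
      exact key_zero W (le_antisymm h1 bot_le)
    · intro h f hf
      refine ⟨hf.symm, ?_⟩
      have h2 : key W b e = 0 := by
        unfold key
        rw [if_neg (fun h' => hs (by rw [← h', ← h])), if_pos h]
      rw [h2]
      exact bot_le

theorem Xmax_ordOf (b : B.V → Bool) : Xmax (ordOf W b) = XM W b := by
  ext x
  simp only [Xmax, XM, Set.mem_ofPred_eq, isMax_ordOf]

theorem Xmin_ordOf (b : B.V → Bool) : Xmin (ordOf W b) = XM W (neg b) := by
  ext x
  simp only [Xmin, XM, Set.mem_ofPred_eq, isMin_ordOf]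

/-! ### Branches -/

theorem transfer {b' : B.V → Bool} (x : PathSpace B) (N : ℕ)
    (h : ∀ i, N ≤ i → M W b' (B.r (x.1 i)) = x.1 i) :
    ∃ z ∈ XM W b', ∀ i, N ≤ i → z.1 i = x.1 i := by
  obtain ⟨z, hz1, hz2⟩ := exists_splice (M_choice W b') x N
  refine ⟨z, fun i => ?_, hz1⟩
  rcases Nat.lt_or_ge i N with hi | hi
  · exact hz2 i hi
  · rw [hz1 i hi, h i hi]

theorem tail_eq {b : B.V → Bool} {x x' : PathSpace B} (hx : x ∈ XM W b) (hx' : x' ∈ XM W b)
    {N : ℕ} (h : ∀ i, N ≤ i → x.1 i = x'.1 i) : x = x' :=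
  path_ext (c := M W b) (N := N) h (fun i _ => hx i) (fun i _ => hx' i)

theorem down_eq {b : B.V → Bool} {x x' : PathSpace B} (hx : x ∈ XM W b) (hx' : x' ∈ XM W b)
    {n : ℕ} (h : B.r (x.1 n) = B.r (x'.1 n)) : ∀ i, i ≤ n → x.1 i = x'.1 i := by
  have key : ∀ k, k ≤ n → x.1 (n - k) = x'.1 (n - k) := by
    intro k
    induction k with
    | zero =>
      intro _
      show x.1 n = x'.1 n
      rw [hx n, hx' n, h]
    | succ k ih =>
      intro hk
      have h4 := ih (by omega)
      rw [hx (n - (k + 1)), hx' (n - (k + 1)), x.2.2, x'.2.2]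
      have e1 : n - (k + 1) + 1 = n - k := by omega
      rw [e1, h4]
  intro i hi
  have := key (n - i) (by omega)
  have e1 : n - (n - i) = i := by omega
  rwa [e1] at this

/-- swap the bits on `S` -/
noncomputable def swp (b : B.V → Bool) (S : Set B.V) : B.V → Bool := by
  classical
  exact fun v => if v ∈ S then !b v else b v

theorem M_swp_mem {b : B.V → Bool} {S : Set B.V} {v : B.V} (h : v ∈ S) :
    M W (neg (swp b S)) v = M W b v := by
  unfold M neg swp
  rw [if_pos h]
  simp

theorem M_swp_notMem {b : B.V → Bool} {S : Set B.V} {v : B.V} (h : v ∉ S) :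
    M W (swp b S) v = M W b v := by
  unfold M swp
  rw [if_neg h]

theorem case_uncountable {b : B.V → Bool} (hb : ¬ (XM W b).Countable) :
    ∃ b', ¬ (XM W b').Countable ∧ ¬ (XM W (neg b')).Countable := by
  classical
  let A : ℕ → B.V → Set (PathSpace B) := fun k v => {x | x ∈ XM W b ∧ B.s (x.1 k) = v}
  have h1 : ∃ k v₁ v₂, v₁ ≠ v₂ ∧ ¬ (A k v₁).Countable ∧ ¬ (A k v₂).Countable := by
    by_contra hcon
    push Not at hcon
    apply hb
    have h2 : XM W b ⊆ (⋃ k, ⋃ v ∈ {v | (A k v).Countable}, A k v) ∪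
        {x | x ∈ XM W b ∧ ∀ k, ¬ (A k (B.s (x.1 k))).Countable} := by
      intro x hx
      by_cases h3 : ∀ k, ¬ (A k (B.s (x.1 k))).Countable
      · exact Or.inr ⟨hx, h3⟩
      · push Not at h3
        obtain ⟨k, hk⟩ := h3
        left
        simp only [Set.mem_iUnion]
        exact ⟨k, B.s (x.1 k), hk, hx, rfl⟩
    refine Set.Countable.mono h2 (Set.Countable.union ?_ ?_)
    · refine Set.countable_iUnion fun k => ?_
      exact Set.Countable.biUnion (Set.to_countable _) (fun v hv => hv)
    · apply Set.Subsingleton.countable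
      rintro x ⟨hx, hx2⟩ x' ⟨hx', hx2'⟩
      have h4 : ∀ k, B.s (x.1 k) = B.s (x'.1 k) := by
        intro k
        by_contra h5
        exact hx2' k (hcon k _ _ h5 (hx2 k))
      apply Subtype.ext
      funext i
      have h5 : B.r (x.1 i) = B.r (x'.1 i) := by rw [x.2.2, x'.2.2, h4]
      exact down_eq W hx hx' h5 i le_rfl
  obtain ⟨k, v₁, v₂, hne, hA1, hA2⟩ := h1
  let S : Set B.V := {w | ∃ x ∈ A k v₁, ∃ i, k ≤ i ∧ w = B.r (x.1 i)}
  refine ⟨swp b S, ?_, ?_⟩
  · intro hc
    apply hA2
    have h2 : ∀ x : PathSpace B, ∃ z : PathSpace B, x ∈ A k v₂ →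
        z ∈ XM W (swp b S) ∧ ∀ i, k ≤ i → z.1 i = x.1 i := by
      intro x
      by_cases hx : x ∈ A k v₂
      · obtain ⟨z, hz1, hz2⟩ := transfer W (b' := swp b S) x k (fun i hi => by
          have h3 : B.r (x.1 i) ∉ S := by
            rintro ⟨x', hx', j, hj, hr⟩
            have h4 := congrArg B.level hr
            rw [level_rr, level_rr] at h4
            have h5 : i = j := by omega
            subst h5
            have h6 := down_eq W hx.1 hx'.1 hr k hi
            apply hne
            rw [← hx.2, ← hx'.2, h6]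
          rw [M_swp_notMem W h3]
          exact (hx.1 i).symm)
        exact ⟨z, fun _ => ⟨hz1, hz2⟩⟩
      · exact ⟨x, fun h => absurd h hx⟩
    choose F hF using h2
    refine Set.MapsTo.countable_of_injOn (f := F) (t := XM W (swp b S))
      (fun x hx => (hF x hx).1) ?_ hc
    intro x hx x' hx' hxx
    refine tail_eq W hx.1 hx'.1 (N := k) (fun i hi => ?_)
    rw [← (hF x hx).2 i hi, ← (hF x' hx').2 i hi, hxx]
  · intro hc
    apply hA1
    have h2 : ∀ x : PathSpace B, ∃ z : PathSpace B, x ∈ A k v₁ →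
        z ∈ XM W (neg (swp b S)) ∧ ∀ i, k ≤ i → z.1 i = x.1 i := by
      intro x
      by_cases hx : x ∈ A k v₁
      · obtain ⟨z, hz1, hz2⟩ := transfer W (b' := neg (swp b S)) x k (fun i hi => by
          have h3 : B.r (x.1 i) ∈ S := ⟨x, hx, i, hi, rfl⟩
          rw [M_swp_mem W h3]
          exact (hx.1 i).symm)
        exact ⟨z, fun _ => ⟨hz1, hz2⟩⟩
      · exact ⟨x, fun h => absurd h hx⟩
    choose F hF using h2
    refine Set.MapsTo.countable_of_injOn (f := F) (t := XM W (neg (swp b S)))
      (fun x hx => (hF x hx).1) ?_ hc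
    intro x hx x' hx' hxx
    refine tail_eq W hx.1 hx'.1 (N := k) (fun i hi => ?_)
    rw [← (hF x hx).2 i hi, ← (hF x' hx').2 i hi, hxx]

theorem case_infinite {b : B.V → Bool} (hb : (XM W b).Infinite) :
    ∃ b', (XM W b').Infinite ∧ (XM W (neg b')).Infinite := by
  classical
  have := hb.to_subtype
  let g' := Infinite.natEmbedding (XM W b)
  let g : ℕ → PathSpace B := fun i => (g' i).1
  have hg : ∀ i, g i ∈ XM W b := fun i => (g' i).2
  have hginj : ∀ i j, i ≠ j → g i ≠ g j := fun i j hij h => hij (g'.injective (Subtype.ext h))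
  have hN : ∀ i j, ∃ N, i ≠ j → ∀ n, N ≤ n → B.r ((g i).1 n) ≠ B.r ((g j).1 n) := by
    intro i j
    by_contra hcon
    push Not at hcon
    obtain ⟨hij, -⟩ := hcon 0
    apply hginj i j hij
    apply Subtype.ext
    funext m
    obtain ⟨-, n, hn, hr⟩ := hcon m
    exact down_eq W (hg i) (hg j) hr m hn
  choose N hN using hN
  have hL : ∀ j, ∃ L, ∀ i, i < j → N i j ≤ L ∧ N j i ≤ L := by
    intro j
    refine ⟨(Finset.range j).sup (fun i => max (N i j) (N j i)), fun i hi => ?_⟩
    have := Finset.le_sup (f := fun i => max (N i j) (N j i)) (Finset.mem_range.2 hi)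
    exact ⟨(le_max_left _ _).trans this, (le_max_right _ _).trans this⟩
  choose L hL using hL
  let S : Set B.V := {w | ∃ j, Odd j ∧ ∃ n, L j ≤ n ∧ w = B.r ((g j).1 n)}
  have hodd : ∀ j, Odd j → ∃ z ∈ XM W (neg (swp b S)), ∀ n, L j ≤ n → z.1 n = (g j).1 n := by
    intro j hj
    refine transfer W (g j) (L j) (fun n hn => ?_)
    have h3 : B.r ((g j).1 n) ∈ S := ⟨j, hj, n, hn, rfl⟩
    rw [M_swp_mem W h3]
    exact (hg j n).symm
  have heven : ∀ i, Even i → ∃ z ∈ XM W (swp b S), ∀ n, L i ≤ n → z.1 n = (g i).1 n := by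
    intro i hi
    refine transfer W (g i) (L i) (fun n hn => ?_)
    have h3 : B.r ((g i).1 n) ∉ S := by
      rintro ⟨j, hj, n', hn', hr⟩
      have h4 := congrArg B.level hr
      rw [level_rr, level_rr] at h4
      have h5 : n = n' := by omega
      subst h5
      have hij : i ≠ j := by
        rintro rfl
        exact (Nat.not_even_iff_odd.2 hj) hi
      rcases Nat.lt_or_gt_of_ne hij with h | h
      · exact hN i j hij n (((hL j i h).1).trans hn') hr
      · exact hN i j hij n (((hL i j h).2).trans hn) hr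
    rw [M_swp_notMem W h3]
    exact (hg i n).symm
  have hfin : ∀ (b'' : B.V → Bool) (z : ℕ → PathSpace B) (ι : ℕ → ℕ), Function.Injective ι →
      (∀ k, z k ∈ XM W b'') → (∀ k n, L (ι k) ≤ n → (z k).1 n = (g (ι k)).1 n) →
      (XM W b'').Infinite := by
    intro b'' z ι hι hz hz2
    refine Set.infinite_of_injective_forall_mem (f := z) ?_ hz
    intro k l hkl
    by_contra hne
    have hne' : ι k ≠ ι l := fun h => hne (hι h)
    have h1 := hN _ _ hne' (max (N (ι k) (ι l)) (max (L (ι k)) (L (ι l)))) (le_max_left _ _)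
    apply h1
    rw [← hz2 k _ ((le_max_left _ _).trans (le_max_right _ _)),
      ← hz2 l _ ((le_max_right _ _).trans (le_max_right _ _)), hkl]
  refine ⟨swp b S, ?_, ?_⟩
  · choose z hz1 hz2 using fun k : ℕ => heven (2 * k) (even_two_mul k)
    exact hfin _ z (fun k => 2 * k) (fun a b h => by simpa using h) hz1 hz2
  · choose z hz1 hz2 using fun k : ℕ => hodd (2 * k + 1) (odd_two_mul_add_one k)
    exact hfin _ z (fun k => 2 * k + 1) (fun a b h => by simpa using h) hz1 hz2

end Pool.Agent.H289BV
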