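import Pool.Agent.H289BV.PartB
import Pool.Agent.H289BV.Baire

set_option autoImplicit false

namespace Pool.Agent.H289BV

open Set Filter Topology MeasureTheory

variable {B : GBD} (W : Two B)

/-- the bits for which there are at least `n` branches -/
def BB (n : ℕ) : Set (B.V → Bool) :=
  {b | ∃ g : Fin n → PathSpace B, Function.Injective g ∧ ∀ j, g j ∈ XM W b}

theorem analytic_of_open {Z : Type*} [TopologicalSpace Z] [PolishSpace Z] {s : Set Z}
    (hs : IsOpen s) : AnalyticSet s := by
  have := hs.analyticSet_image (f := id) continuous_id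
  rwa [image_id] at this

theorem analytic_BB (n : ℕ) : AnalyticSet (BB W n) := by
  let Z : Type := (B.V → Bool) × (Fin n → PathSpace B)
  have hV : PolishSpace (B.V → Bool) := PolishSpace.mk
  have hZ : PolishSpace ((B.V → Bool) × (Fin n → PathSpace B)) := inferInstance
  have : PolishSpace Z := hZ
  let s : Option (Fin n × Fin n) ⊕ (Fin n × ℕ) → Set Z := fun i => match i with
    | .inl none => univ
    | .inl (some (i, j)) => {p | p.2 i = p.2 j → i = j}
    | .inr (j, k) => {p | (p.2 j).1 k = M W p.1 (B.r ((p.2 j).1 k))}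
  have hs : ∀ i, AnalyticSet (s i) := by
    intro i
    apply analytic_of_open
    rcases i with (_ | ⟨i, j⟩) | ⟨j, k⟩
    · exact isOpen_univ
    · show IsOpen {p : Z | p.2 i = p.2 j → i = j}
      by_cases hij : i = j
      · have : {p : Z | p.2 i = p.2 j → i = j} = univ := by
          ext p; simp [hij]
        rw [this]; exact isOpen_univ
      · have : {p : Z | p.2 i = p.2 j → i = j} = {p : Z | p.2 i ≠ p.2 j} := by
          ext p; simp [hij]
        rw [this]
        exact isOpen_ne_fun ((continuous_apply i).comp continuous_snd)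
          ((continuous_apply j).comp continuous_snd)
    · show IsOpen {p : Z | (p.2 j).1 k = M W p.1 (B.r ((p.2 j).1 k))}
      have : {p : Z | (p.2 j).1 k = M W p.1 (B.r ((p.2 j).1 k))} =
          ⋃ e : B.E, ((fun p : Z => (p.2 j).1 k) ⁻¹' {e}) ∩
            ((fun p : Z => p.1 (B.r e)) ⁻¹' {c | (if c then W.e1 (B.r e) else W.e0 (B.r e)) = e}) := by
        ext p
        simp only [mem_iUnion, mem_inter_iff, mem_preimage, mem_singleton_iff, mem_ofPred_eq]
        constructor
        · intro h
          exact ⟨(p.2 j).1 k, rfl, h.symm⟩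
        · rintro ⟨e, he1, he2⟩
          rw [he1]; exact he2.symm
      rw [this]
      refine isOpen_iUnion fun e => IsOpen.inter ?_ ?_
      · refine (isOpen_discrete _).preimage ?_
        exact (continuous_coord k).comp ((continuous_apply j).comp continuous_snd)
      · refine (isOpen_discrete _).preimage ?_
        exact (continuous_apply (B.r e)).comp continuous_fst
  have h1 : AnalyticSet (⋂ i, s i) := AnalyticSet.iInter hs
  have h2 := h1.image_of_continuous (f := fun p : Z => p.1) continuous_fst
  have h3 : BB W n = (fun p : Z => p.1) '' (⋂ i, s i) := by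
    ext b
    constructor
    · rintro ⟨g, hg1, hg2⟩
      refine ⟨(b, g), ?_, rfl⟩
      rw [mem_iInter]
      rintro ((_ | ⟨i, j⟩) | ⟨j, k⟩)
      · trivial
      · exact fun h => hg1 h
      · exact hg2 j k
    · rintro ⟨⟨b', g⟩, hp, rfl⟩
      rw [mem_iInter] at hp
      exact ⟨g, fun i j h => hp (.inl (some (i, j))) h, fun j k => hp (.inr (j, k))⟩
  rw [h3]
  exact h2

/-- flip the bits in `S` -/
def flp (S : Finset B.V) [DecidableEq B.V] (b : B.V → Bool) : B.V → Bool :=
  fun v => if v ∈ S then !b v else b v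

theorem flp_flp [DecidableEq B.V] (S : Finset B.V) (b : B.V → Bool) : flp S (flp S b) = b := by
  funext v
  unfold flp
  by_cases h : v ∈ S <;> simp [h]

theorem continuous_flp [DecidableEq B.V] (S : Finset B.V) : Continuous (flp (B := B) S) := by
  refine continuous_pi fun v => ?_
  unfold flp
  by_cases h : v ∈ S
  · simp only [h, if_true]
    exact (continuous_of_discreteTopology (f := fun c : Bool => !c)).comp (continuous_apply v)
  · simp only [h, if_false]
    exact continuous_apply v

theorem residual_of_invol {Z : Type*} [TopologicalSpace Z] {f : Z → Z} (hf : Continuous f)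
    (hff : ∀ z, f (f z) = z) {p : Z → Prop} (h : ∀ᶠ z in residual Z, p z) :
    ∀ᶠ z in residual Z, p (f z) := by
  have ho : IsOpenMap f := by
    intro U hU
    have : f '' U = f ⁻¹' U := by
      ext z
      constructor
      · rintro ⟨y, hy, rfl⟩
        show f (f y) ∈ U
        rw [hff]; exact hy
      · intro hz
        exact ⟨f z, hz, hff z⟩
    rw [this]
    exact hU.preimage hf
  exact (tendsto_residual_of_isOpenMap hf ho).eventually h

theorem BB_flp [DecidableEq B.V] (n : ℕ) (S : Finset B.V) (b : B.V → Bool) (h : b ∈ BB W n) :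
    flp S b ∈ BB W n := by
  obtain ⟨g, hg1, hg2⟩ := h
  let N := S.sup B.level
  have hN : ∀ v ∈ S, B.level v ≤ N := fun v hv => Finset.le_sup (f := B.level) hv
  have h1 : ∀ j, ∃ z ∈ XM W (flp S b), ∀ i, N ≤ i → z.1 i = (g j).1 i := by
    intro j
    refine transfer W (g j) N (fun i hi => ?_)
    have h2 : B.r ((g j).1 i) ∉ S := by
      intro hmem
      have h3 := hN _ hmem
      rw [level_rr] at h3
      omega
    have h4 : M W (flp S b) (B.r ((g j).1 i)) = M W b (B.r ((g j).1 i)) := by
      unfold M flp
      rw [if_neg h2]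
    rw [h4]
    exact (hg2 j i).symm
  choose z hz1 hz2 using h1
  refine ⟨z, fun i j hij => ?_, hz1⟩
  apply hg1
  refine tail_eq W (hg2 i) (hg2 j) (N := N) (fun k hk => ?_)
  rw [← hz2 i k hk, ← hz2 j k hk, hij]

theorem zero_one (n : ℕ) : (∀ᶠ b in residual (B.V → Bool), b ∈ BB W n) ∨
    (∀ᶠ b in residual (B.V → Bool), b ∉ BB W n) := by
  classical
  obtain ⟨u, hu, hAu⟩ := analytic_baire (analytic_BB W n)
  by_cases hne : u.Nonempty
  · left
    obtain ⟨b0, hb0⟩ := hne
    obtain ⟨F, U, hU1, hU2⟩ := isOpen_pi_iff.1 hu b0 hb0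
    have h1 : ∀ S ∈ F.powerset, ∀ᶠ b in residual (B.V → Bool), (flp S b ∈ BB W n ↔ flp S b ∈ u) :=
      fun S _ => residual_of_invol (continuous_flp S) (flp_flp S) hAu
    have h2 : ∀ᶠ b in residual (B.V → Bool), ∀ S ∈ F.powerset,
        (flp S b ∈ BB W n ↔ flp S b ∈ u) := (Filter.eventually_all_finset F.powerset).2 h1
    filter_upwards [h2] with b hb
    let S := F.filter (fun v => b v ≠ b0 v)
    have hS : S ∈ F.powerset := Finset.mem_powerset.2 (Finset.filter_subset _ _)
    have h3 : flp S b ∈ u := by
      apply hU2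
      intro v hv
      have hv' : v ∈ F := hv
      have h4 : flp S b v = b0 v := by
        unfold flp
        by_cases h5 : b v = b0 v
        · have : v ∉ S := by simp [S, h5]
          rw [if_neg this]; exact h5
        · have : v ∈ S := by simp [S, h5, hv']
          rw [if_pos this]
          cases h6 : b v <;> cases h7 : b0 v <;> simp_all
      rw [h4]
      exact (hU1 v hv').2
    have h4 := (hb S hS).2 h3
    have h5 := BB_flp W n S _ h4
    rwa [flp_flp] at h5
  · right
    filter_upwards [hAu] with b hb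
    intro h
    exact hne ⟨b, hb.1 h⟩

theorem card_eq {n : ℕ} {b : B.V → Bool} (hfin : (XM W b).Finite) (h1 : b ∈ BB W n)
    (h2 : b ∉ BB W (n + 1)) : Nat.card (XM W b) = n := by
  have := hfin.to_subtype
  obtain ⟨g, hg1, hg2⟩ := h1
  have h3 : n ≤ Nat.card (XM W b) := by
    have h4 : Function.Injective (fun j : Fin n => (⟨g j, hg2 j⟩ : XM W b)) := by
      intro i j hij
      exact hg1 (congrArg Subtype.val hij)
    simpa using Nat.card_le_card_of_injective _ h4
  by_contra hne
  have h5 : n + 1 ≤ Nat.card (XM W b) := by omega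
  apply h2
  let e := (Finite.equivFin (XM W b)).symm
  refine ⟨fun j => (e (Fin.castLE h5 j)).1, ?_, fun j => (e (Fin.castLE h5 j)).2⟩
  intro i j hij
  have h6 := e.injective (Subtype.ext hij)
  exact (Fin.castLE_injective h5) h6

theorem case_finite (hfin : ∀ b, (XM W b).Finite) :
    ∃ b, Nonempty (XM W b ≃ XM W (neg b)) := by
  classical
  have h1 : ∃ n, ¬ ∀ᶠ b in residual (B.V → Bool), b ∈ BB W n := by
    by_contra hcon
    push Not at hcon
    have h2 : ∀ᶠ b in residual (B.V → Bool), ∀ n, b ∈ BB W n := eventually_countable_forall.2 hcon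
    obtain ⟨b, hb⟩ := (dense_of_mem_residual h2).nonempty
    have hb : ∀ n, b ∈ BB W n := hb
    obtain ⟨g, hg1, hg2⟩ := hb (Nat.card (XM W b) + 1)
    have := (hfin b).to_subtype
    have h4 : Function.Injective (fun j : Fin (Nat.card (XM W b) + 1) =>
        (⟨g j, hg2 j⟩ : XM W b)) := by
      intro i j hij
      exact hg1 (congrArg Subtype.val hij)
    have h5 := Nat.card_le_card_of_injective _ h4
    simp at h5
  have h2 := Nat.find_spec h1
  obtain ⟨m, hm⟩ : ∃ m, Nat.find h1 = m := ⟨_, rfl⟩
  rw [hm] at h2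
  cases m with
  | zero =>
    exfalso
    apply h2
    refine Eventually.of_forall fun b => ?_
    exact ⟨Fin.elim0, fun i => Fin.elim0 i, fun i => Fin.elim0 i⟩
  | succ n =>
    have h3 : ∀ᶠ b in residual (B.V → Bool), b ∈ BB W n := by
      by_contra h4
      exact Nat.find_min h1 (by omega) h4
    have h4 := (zero_one W (n + 1)).resolve_left h2
    have hc : Continuous (neg (B := B)) := continuous_pi fun v =>
      (continuous_of_discreteTopology (f := fun c : Bool => !c)).comp (continuous_apply v)
    have hnn : ∀ b : B.V → Bool, neg (neg b) = b := by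
      intro b; funext v; simp [neg]
    have h5 := residual_of_invol hc hnn h3
    have h6 := residual_of_invol hc hnn h4
    have h7 : ∀ᶠ b in residual (B.V → Bool), b ∈ BB W n ∧ b ∉ BB W (n + 1) ∧
        neg b ∈ BB W n ∧ neg b ∉ BB W (n + 1) := by
      filter_upwards [h3, h4, h5, h6] with b a1 a2 a3 a4
      exact ⟨a1, a2, a3, a4⟩
    obtain ⟨b, a1, a2, a3, a4⟩ := (dense_of_mem_residual h7).nonempty
    refine ⟨b, ?_⟩
    have := (hfin b).to_subtype
    have := (hfin (neg b)).to_subtype
    exact Finite.card_eq.1 ((card_eq W (hfin b) a1 a2).trans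
      (card_eq W (hfin (neg b)) a3 a4).symm)

theorem isClosed_XM (b : B.V → Bool) : IsClosed (XM W b) := by
  have : XM W b = ⋂ i, (fun x : PathSpace B => x.1 i) ⁻¹' {e | e = M W b (B.r e)} := by
    ext x; simp [XM]
  rw [this]
  exact isClosed_iInter fun i => (isClosed_discrete _).preimage (continuous_coord i)

theorem exists_bits : ∃ b, Nonempty (XM W b ≃ᵐ XM W (neg b)) := by
  have hsb : ∀ b, StandardBorelSpace (XM W b) :=
    fun b => (isClosed_XM W b).measurableSet.standardBorel
  by_cases h1 : ∃ b, ¬ (XM W b).Countable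
  · obtain ⟨b, hb⟩ := h1
    obtain ⟨b', h2, h3⟩ := case_uncountable W hb
    have := hsb b'
    have := hsb (neg b')
    exact ⟨b', ⟨PolishSpace.measurableEquivOfNotCountable (fun h => h2 h.to_set)
      (fun h => h3 h.to_set)⟩⟩
  · push Not at h1
    by_cases h4 : ∃ b, (XM W b).Infinite
    · obtain ⟨b, hb⟩ := h4
      obtain ⟨b', h2, h3⟩ := case_infinite W hb
      have := hsb b'
      have := hsb (neg b')
      have := h2.to_subtype
      have := h3.to_subtype
      have := (h1 b').to_subtype
      have := (h1 (neg b')).to_subtype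
      obtain ⟨e1⟩ := nonempty_denumerable (XM W b')
      obtain ⟨e2⟩ := nonempty_denumerable (XM W (neg b'))
      exact ⟨b', ⟨PolishSpace.Equiv.measurableEquiv (Denumerable.equiv₂ _ _)⟩⟩
    · push Not at h4
      obtain ⟨b, ⟨e⟩⟩ := case_finite W h4
      have := hsb b
      have := hsb (neg b)
      exact ⟨b, ⟨PolishSpace.Equiv.measurableEquiv e⟩⟩

theorem main (B : GBD) : ∃ O : Ord B, GeneratesBorelVershikMap O := by
  obtain ⟨W⟩ := exists_two B
  obtain ⟨b, ⟨θ⟩⟩ := exists_bits W
  refine ⟨ordOf W b, generates_of_equiv _ ?_⟩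
  rw [Xmax_ordOf, Xmin_ordOf]
  exact θ

end Pool.Agent.H289BV
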