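import Pool.Agent.H289BV.Defs

set_option autoImplicit false

namespace Pool.Agent.H289BV

variable {B : GBD}

/-! ### Finite paths below a vertex -/

def below (B : GBD) (c : B.V → B.E) (v : B.V) (k : ℕ) : B.V := (fun u => B.s (c u))^[k] v

theorem below_zero (c : B.V → B.E) (v : B.V) : below B c v 0 = v := rfl

theorem below_succ (c : B.V → B.E) (v : B.V) (k : ℕ) :
    below B c v (k + 1) = B.s (c (below B c v k)) := by
  unfold below; rw [Function.iterate_succ_apply']

def IsChoice (B : GBD) (c : B.V → B.E) : Prop := ∀ v, B.level v ≠ 0 → B.r (c v) = v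

theorem level_below {c : B.V → B.E} (hc : IsChoice B c) (v : B.V) :
    ∀ k, k ≤ B.level v → B.level (below B c v k) = B.level v - k := by
  intro k
  induction k with
  | zero => intro _; rfl
  | succ k ih =>
    intro hk
    have h1 := ih (by omega)
    have h2 := hc (below B c v k) (by omega)
    have h3 := B.level_r (c (below B c v k))
    rw [h2] at h3
    rw [below_succ]
    omega

def splice (B : GBD) (c : B.V → B.E) (N : ℕ) (y : ℕ → B.E) : ℕ → B.E :=
  fun i => if N ≤ i then y i else c (below B c (B.s (y N)) (N - 1 - i))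

theorem splice_ge (c : B.V → B.E) {N : ℕ} (y : ℕ → B.E) {i : ℕ} (h : N ≤ i) :
    splice B c N y i = y i := by unfold splice; rw [if_pos h]

theorem splice_lt (c : B.V → B.E) {N : ℕ} (y : ℕ → B.E) {i : ℕ} (h : i < N) :
    splice B c N y i = c (below B c (B.s (y N)) (N - 1 - i)) := by
  unfold splice; rw [if_neg (by omega)]

theorem splice_mem {c : B.V → B.E} (hc : IsChoice B c) {N : ℕ} {y : ℕ → B.E}
    (h1 : B.level (B.s (y N)) = N) (h2 : ∀ i, N ≤ i → B.r (y i) = B.s (y (i + 1))) :
    B.level (B.s (splice B c N y 0)) = 0 ∧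
      (∀ i, B.r (splice B c N y i) = B.s (splice B c N y (i + 1))) ∧
      ∀ i < N, splice B c N y i = c (B.r (splice B c N y i)) := by
  have hr : ∀ i, i < N → B.r (splice B c N y i) = below B c (B.s (y N)) (N - 1 - i) := by
    intro i hi
    rw [splice_lt c y hi]
    apply hc
    rw [level_below hc _ _ (by omega), h1]
    omega
  have hs : ∀ i, i < N → B.s (splice B c N y i) = below B c (B.s (y N)) (N - i) := by
    intro i hi
    rw [splice_lt c y hi, ← below_succ]
    congr 1
    omega
  refine ⟨?_, ?_, ?_⟩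
  · rcases Nat.eq_zero_or_pos N with h | h
    · subst h
      rw [splice_ge c y le_rfl]; exact h1
    · rw [hs 0 h, level_below hc _ _ (by omega), h1]
      omega
  · intro i
    rcases Nat.lt_or_ge i N with h | h
    · rw [hr i h]
      rcases Nat.lt_or_ge (i + 1) N with h' | h'
      · rw [hs (i + 1) h']
        congr 1
        omega
      · have : i + 1 = N := by omega
        rw [splice_ge c y h']
        have e1 : N - 1 - i = 0 := by omega
        rw [e1, below_zero, this]
    · rw [splice_ge c y h, splice_ge c y (by omega)]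
      exact h2 i h
  · intro i hi
    rw [hr i hi, splice_lt c y hi]

theorem level_s (x : PathSpace B) (i : ℕ) : B.level (B.s (x.1 i)) = i := by
  induction i with
  | zero => exact x.2.1
  | succ i ih => rw [← x.2.2 i, B.level_r, ih]

theorem level_rr (x : PathSpace B) (i : ℕ) : B.level (B.r (x.1 i)) = i + 1 := by
  rw [B.level_r, level_s]

theorem path_ext {c : B.V → B.E} {N : ℕ} {z z' : PathSpace B} (h1 : ∀ i, N ≤ i → z.1 i = z'.1 i)
    (h2 : ∀ i < N, z.1 i = c (B.r (z.1 i))) (h3 : ∀ i < N, z'.1 i = c (B.r (z'.1 i))) :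
    z = z' := by
  have key : ∀ k, k ≤ N → z.1 (N - k) = z'.1 (N - k) := by
    intro k
    induction k with
    | zero => intro _; exact h1 _ le_rfl
    | succ k ih =>
      intro hk
      have h4 := ih (by omega)
      rw [h2 _ (by omega), h3 _ (by omega), z.2.2, z'.2.2]
      have e1 : N - (k + 1) + 1 = N - k := by omega
      rw [e1, h4]
  apply Subtype.ext
  funext i
  rcases Nat.lt_or_ge i N with h | h
  · have := key (N - i) (by omega)
    have e1 : N - (N - i) = i := by omega
    rwa [e1] at this
  · exact h1 i h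

/-- completion of a tail -/
theorem exists_splice {c : B.V → B.E} (hc : IsChoice B c) (x : PathSpace B) (N : ℕ) :
    ∃ z : PathSpace B, (∀ i, N ≤ i → z.1 i = x.1 i) ∧ ∀ i < N, z.1 i = c (B.r (z.1 i)) := by
  have h := splice_mem hc (N := N) (y := x.1) (level_s x N) (fun i _ => x.2.2 i)
  exact ⟨⟨splice B c N x.1, h.1, h.2.1⟩, fun i hi => splice_ge c x.1 hi, h.2.2⟩

/-! ### Orders -/

theorem exists_least (O : Ord B) (F : Finset B.E) (hne : F.Nonempty)
    (hF : ∀ e ∈ F, ∀ f ∈ F, B.r e = B.r f) : ∃ e ∈ F, ∀ f ∈ F, O.le e f := by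
  classical
  induction F using Finset.induction_on with
  | empty => exact absurd hne Finset.not_nonempty_empty
  | insert a F ha ih =>
    by_cases hF' : F.Nonempty
    · obtain ⟨e, he, he2⟩ := ih hF' (fun e he f hf => hF e (Finset.mem_insert_of_mem he) f
        (Finset.mem_insert_of_mem hf))
      rcases O.total a e (hF a (Finset.mem_insert_self a F) e (Finset.mem_insert_of_mem he))
        with h | h
      · refine ⟨a, Finset.mem_insert_self a F, fun f hf => ?_⟩
        rcases Finset.mem_insert.1 hf with h' | h'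
        · rw [h']; exact O.refl a
        · exact O.trans _ _ _ h (he2 f h')
      · refine ⟨e, Finset.mem_insert_of_mem he, fun f hf => ?_⟩
        rcases Finset.mem_insert.1 hf with h' | h'
        · rw [h']; exact h
        · exact he2 f h'
    · rw [Finset.not_nonempty_iff_eq_empty] at hF'
      subst hF'
      refine ⟨a, Finset.mem_insert_self a _, fun f hf => ?_⟩
      rcases Finset.mem_insert.1 hf with h' | h'
      · rw [h']; exact O.refl a
      · exact absurd h' (Finset.notMem_empty f)

theorem exists_min (O : Ord B) (v : B.V) (hv : B.level v ≠ 0) :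
    ∃ e, B.r e = v ∧ IsMinEdge O e := by
  obtain ⟨e0, he0⟩ := B.in_edge v hv
  obtain ⟨e, he, he2⟩ := exists_least O (B.finite_in v).toFinset ⟨e0, by simpa using he0⟩
    (fun e he f hf => by
      rw [Set.Finite.mem_toFinset] at he hf
      exact (show B.r e = v from he).trans (show B.r f = v from hf).symm)
  have he' : B.r e = v := by rw [Set.Finite.mem_toFinset] at he; exact he
  exact ⟨e, he', fun f hf => he2 f (by rw [Set.Finite.mem_toFinset]; exact hf.trans he')⟩

theorem exists_succ (O : Ord B) (e : B.E) (he : ¬ IsMaxEdge O e) : ∃ f, IsSuccEdge O e f := by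
  classical
  have hfin : {f | O.le e f ∧ f ≠ e}.Finite := by
    refine (B.finite_in (B.r e)).subset ?_
    intro f hf
    exact (O.same_range e f hf.1).symm
  have hne : {f | O.le e f ∧ f ≠ e}.Nonempty := by
    unfold IsMaxEdge at he
    push Not at he
    obtain ⟨f, hf1, hf2⟩ := he
    refine ⟨f, (O.total e f hf1.symm).resolve_right hf2, ?_⟩
    rintro rfl
    exact hf2 (O.refl _)
  obtain ⟨f, hf, hf2⟩ := exists_least O hfin.toFinset (by simpa using hne)
    (fun a ha b hb => by
      rw [Set.Finite.mem_toFinset] at ha hb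
      exact (O.same_range _ _ ha.1).symm.trans (O.same_range _ _ hb.1))
  rw [Set.Finite.mem_toFinset] at hf
  refine ⟨f, hf.1, fun h => hf.2 h.symm, fun g hg1 hg2 => ?_⟩
  by_cases hge : g = e
  · exact Or.inl hge
  · right
    exact O.antisymm _ _ hg2 (hf2 g (by rw [Set.Finite.mem_toFinset]; exact ⟨hg1, hge⟩))

theorem succ_unique (O : Ord B) {e f f' : B.E} (h : IsSuccEdge O e f) (h' : IsSuccEdge O e f') :
    f = f' := by
  have hr : B.r f = B.r f' := (O.same_range _ _ h.1).symm.trans (O.same_range _ _ h'.1)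
  rcases O.total f f' hr with h1 | h1
  · rcases h'.2.2 f h.1 h1 with h2 | h2
    · exact absurd h2.symm h.2.1
    · exact h2
  · rcases h.2.2 f' h'.1 h1 with h2 | h2
    · exact absurd h2.symm h'.2.1
    · exact h2.symm

/-- the reversed order -/
def Ord.rev (O : Ord B) : Ord B where
  le e f := O.le f e
  same_range e f h := (O.same_range f e h).symm
  refl := O.refl
  antisymm e f h h' := O.antisymm e f h' h
  trans e f g h h' := O.trans g f e h' h
  total e f h := (O.total e f h).symm

theorem rev_succ (O : Ord B) {e f : B.E} (h : IsSuccEdge O.rev f e) : IsSuccEdge O e f :=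
  ⟨h.1, h.2.1.symm, fun g h1 h2 => (h.2.2 g h2 h1).symm⟩

theorem succ_rev (O : Ord B) {e f : B.E} (h : IsSuccEdge O e f) : IsSuccEdge O.rev f e :=
  ⟨h.1, h.2.1.symm, fun g h1 h2 => (h.2.2 g h2 h1).symm⟩

theorem not_max_of_succ (O : Ord B) {e f : B.E} (h : IsSuccEdge O e f) : ¬ IsMaxEdge O e := by
  intro hm
  exact h.2.1 (O.antisymm _ _ h.1 (hm f (O.same_range _ _ h.1).symm))

theorem not_min_of_succ (O : Ord B) {e f : B.E} (h : IsSuccEdge O e f) : ¬ IsMinEdge O f := by
  intro hm
  exact h.2.1 (O.antisymm _ _ h.1 (hm e (O.same_range _ _ h.1)))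

theorem min_unique (O : Ord B) {e f : B.E} (he : IsMinEdge O e) (hf : IsMinEdge O f)
    (h : B.r e = B.r f) : e = f := O.antisymm _ _ (he f h.symm) (hf e h)

theorem vershik_rev (O : Ord B) {x y : PathSpace B} (h : VershikRel O x y) :
    VershikRel O.rev y x := by
  obtain ⟨n, h1, h2, h3, h4, h5⟩ := h
  exact ⟨n, h5, not_min_of_succ O h3, succ_rev O h3, fun i hi => (h4 i hi).symm, h1⟩

theorem rev_vershik (O : Ord B) {x y : PathSpace B} (h : VershikRel O.rev y x) :
    VershikRel O x y := by
  obtain ⟨n, h1, h2, h3, h4, h5⟩ := h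
  exact ⟨n, h5, not_max_of_succ O (rev_succ O h3), rev_succ O h3, fun i hi => (h4 i hi).symm, h1⟩

theorem vershik_unique (O : Ord B) {x y y' : PathSpace B} (h : VershikRel O x y)
    (h' : VershikRel O x y') : y = y' := by
  obtain ⟨n, h1, h2, h3, h4, h5⟩ := h
  obtain ⟨n', h1', h2', h3', h4', h5'⟩ := h'
  have hn : n = n' := by
    rcases Nat.lt_trichotomy n n' with h | h | h
    · exact absurd (h1' n h) h2
    · exact h
    · exact absurd (h1 n' h) h2'
  subst hn
  have hmin : ∀ v : B.V, B.level v ≠ 0 → ∃ e, B.r e = v ∧ IsMinEdge O e := exists_min O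
  classical
  let c : B.V → B.E := fun v => if hv : B.level v ≠ 0 then (hmin v hv).choose else x.1 0
  have hc : ∀ v, B.level v ≠ 0 → B.r (c v) = v ∧ IsMinEdge O (c v) := by
    intro v hv
    simp only [c, dif_pos hv]
    exact (hmin v hv).choose_spec
  have hmc : ∀ (z : PathSpace B) (i : ℕ), IsMinEdge O (z.1 i) → z.1 i = c (B.r (z.1 i)) := by
    intro z i hz
    have h6 := hc (B.r (z.1 i)) (by rw [level_rr]; omega)
    exact min_unique O hz h6.2 h6.1.symm
  refine path_ext (c := c) (N := n) ?_ (fun i hi => hmc y i (h5 i hi))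
    (fun i hi => hmc y' i (h5' i hi))
  intro i hi
  rcases Nat.eq_or_lt_of_le hi with h | h
  · subst h; exact succ_unique O h3 h3'
  · rw [h4 i h, h4' i h]

end Pool.Agent.H289BV
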